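import Pool.Agent.SQD.Stmts

/-!
# LGD (squad SQD): a typical large `d`
-/

set_option autoImplicit false

open scoped BigOperators

noncomputable section

namespace Pool.Agent.SQD.H81

theorem lgd (hmer : MerStmt) : LgdStmt := by
  obtain ⟨C₀, hC₀⟩ := hmer
  refine ⟨(C₀ + 3) / 2, ?_⟩
  intro d w z x hw hwz hd hdx hx hT
  have h1 := (hC₀ w z hw hwz).1
  have hw0 : (0 : ℝ) < w := by
    have : 0 < w := by omega
    exact_mod_cast this
  -- the primes which divide `d`
  set Z : Finset ℕ := (PR w z).filter fun q => jacobiSym d q = 0 with hZ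
  have hZp : ∀ q ∈ Z, q.Prime ∧ w < q ∧ q ∣ d := by
    intro q hq
    obtain ⟨hq1, hq2⟩ := Finset.mem_filter.1 hq
    obtain ⟨hq3, hq4⟩ := Finset.mem_filter.1 hq1
    obtain ⟨hq5, _⟩ := Finset.mem_Ioc.1 hq3
    refine ⟨hq4, hq5, ?_⟩
    have : NeZero q := ⟨hq4.ne_zero⟩
    have h2 := jacobiSym.eq_zero_iff_not_coprime.1 hq2
    rw [Int.gcd_natCast_natCast] at h2
    by_contra hnd
    exact h2 (Nat.Coprime.symm ((Nat.Prime.coprime_iff_not_dvd hq4).2 hnd))
  have hZc : (2 : ℝ) ^ Z.card ≤ d := by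
    have h3 : (∏ q ∈ Z, q) ∣ d := by
      apply Finset.prod_primes_dvd
      · intro q hq
        exact (hZp q hq).1.prime
      · intro q hq
        exact (hZp q hq).2.2
    have h4 : 2 ^ Z.card ≤ ∏ q ∈ Z, q := by
      apply Finset.pow_card_le_prod
      intro q hq
      exact (hZp q hq).1.two_le
    have h5 : 2 ^ Z.card ≤ d := h4.trans (Nat.le_of_dvd hd h3)
    exact_mod_cast h5
  have hd0 : (0 : ℝ) < d := by exact_mod_cast hd
  have hZl : (Z.card : ℝ) * Real.log 2 ≤ w := by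
    have h3 : Real.log ((2 : ℝ) ^ Z.card) ≤ Real.log d :=
      Real.log_le_log (by positivity) hZc
    rw [Real.log_pow] at h3
    have h4 : Real.log d ≤ Real.log x := Real.log_le_log hd0 (by exact_mod_cast hdx)
    linarith
  have hl2 : (1 : ℝ) / 2 ≤ Real.log 2 := by
    have := Real.log_two_gt_d9
    linarith
  have hZs : ∑ q ∈ Z, (1 : ℝ) / q ≤ 2 := by
    have h3 : ∀ q ∈ Z, (1 : ℝ) / q ≤ 1 / w := by
      intro q hq
      have h4 : (w : ℝ) ≤ q := by exact_mod_cast (hZp q hq).2.1.le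
      exact one_div_le_one_div_of_le hw0 h4
    calc ∑ q ∈ Z, (1 : ℝ) / q ≤ ∑ _q ∈ Z, (1 : ℝ) / w := Finset.sum_le_sum h3
      _ = (Z.card : ℝ) / w := by rw [Finset.sum_const, nsmul_eq_mul]; ring
      _ ≤ 2 := by
        rw [div_le_iff₀ hw0]
        have h5 : (0 : ℝ) ≤ Z.card := Nat.cast_nonneg _
        nlinarith
  -- the identity
  have hid : sR (PR w z) - TT w z d ≤ 2 * sR (NR w z d) + ∑ q ∈ Z, (1 : ℝ) / q := by
    unfold sR TT NR
    rw [hZ, Finset.sum_filter, Finset.sum_filter, Finset.mul_sum, ← Finset.sum_sub_distrib,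
      ← Finset.sum_add_distrib]
    apply Finset.sum_le_sum
    intro q _
    have hq0 : (0 : ℝ) ≤ 1 / (q : ℝ) := by positivity
    rcases jacobiSym.trichotomy (d : ℤ) q with h | h | h
    · rw [h]
      simp
    · rw [h]
      simp
    · rw [h]
      simp only [if_true]
      norm_num
      apply le_of_eq
      ring
  linarith [(abs_lt.1 hT).2]

end Pool.Agent.SQD.H81
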